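import Pool.Agent.Lib.MP_ad4d1c_co_h48.ExDefs
import Pool.Agent.Lib.MP_ad4d1c_co_h87.ExC1
import Pool.Agent.Lib.MP_ad4d1c_co_h40.ExC2
import Pool.Agent.Lib.MP_ad4d1c_co_h51.ExU
import Pool.Agent.Lib.MP_ad4d1c_co_h38.ExD

set_option autoImplicit false

/-!
# Module SP of the exact Felsner–Trotter theorem: special families of the V-side
-/

namespace Pool.Agent.Lib.MP_ad4d1c_co_h48.Ex

open Finset

/-! ## small list facts -/

/-- an order of `F` whose head is not `u` and whose last element is not `v` -/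
theorem exists_order {F : List ℕ} (hnd : F.Nodup) (hl : 3 ≤ F.length) (u v : ℕ) :
    ∃ (h : ℕ) (σ : List ℕ) (l : ℕ), h ≠ u ∧ l ≠ v ∧ (h :: (σ ++ [l])).Perm F := by
  have key : ∀ (G : List ℕ), G.Nodup → 2 ≤ G.length → ∀ w : ℕ, ∃ x ∈ G, x ≠ w := by
    intro G hG hG2 w
    match G, hG, hG2 with
    | a :: b :: G', hG, _ =>
      by_cases ha : a = w
      · refine ⟨b, by simp, ?_⟩
        rintro rfl
        subst ha
        simp at hG
      · exact ⟨a, by simp, ha⟩
  obtain ⟨l, hlF, hlv⟩ := key F hnd (by omega) v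
  have hlen : (F.erase l).length = F.length - 1 := List.length_erase_of_mem hlF
  obtain ⟨h, hhF, hhu⟩ := key (F.erase l) (hnd.erase l) (by omega) u
  refine ⟨h, (F.erase l).erase h, l, hhu, hlv, ?_⟩
  have h1 : (h :: (F.erase l).erase h).Perm (F.erase l) := (List.perm_cons_erase hhF).symm
  have h2 : (l :: F.erase l).Perm F := (List.perm_cons_erase hlF).symm
  have h3 : (h :: ((F.erase l).erase h ++ [l])).Perm (l :: h :: (F.erase l).erase h) := by
    have : (h :: ((F.erase l).erase h ++ [l])) = (h :: (F.erase l).erase h) ++ [l] := rfl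
    rw [this]
    exact List.perm_append_singleton _ _
  exact h3.trans ((h1.cons l).trans h2)

/-! ## the plain side -/

theorem sp_build {P Q B e u t : ℕ} (q : ℕ) {R1 bb0 : List ℕ}
    (hnd : (P :: B :: (R1 ++ [Q, e])).Nodup) (hR : 5 ≤ R1.length)
    (hbb : (bb0 ++ [u, t] ++ [P]).Perm (P :: B :: (R1 ++ [Q, e]))) (htB : t ≠ B) (htQ : t ≠ Q) :
    ∃ (c1 : List ℕ) (l : ℕ) (N Y : Fam), l ≠ q ∧ PV (bb0 ++ [u, t]) (c1 ++ [l, Q, B]) N ∧
      PV (c1 ++ [l, Q, B]) (B :: (R1 ++ [Q, e])) Y ∧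
      PV (bb0 ++ [u, t] ++ [P]) (P :: B :: (R1 ++ [Q, e])) (comp P N Y) := by
  have hb1 : (bb0 ++ [u, t]).Perm (B :: (R1 ++ [Q, e])) := by
    have h1 : (P :: (bb0 ++ [u, t])).Perm (P :: B :: (R1 ++ [Q, e])) :=
      (List.perm_append_singleton _ _).symm.trans hbb
    exact (List.perm_cons P).1 h1
  have hnd1 : (B :: (R1 ++ [Q, e])).Nodup := (List.nodup_cons.1 hnd).2
  have hndb : (bb0 ++ [u, t]).Nodup := hb1.nodup_iff.2 hnd1
  have htm : t ∈ R1 ++ [e] := by
    have : t ∈ B :: (R1 ++ [Q, e]) := hb1.subset (by simp)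
    simp only [List.mem_cons, List.mem_append, List.not_mem_nil, or_false] at this ⊢
    rcases this with h | h | h | h
    · exact absurd h htB
    · exact Or.inl h
    · exact absurd h htQ
    · exact Or.inr h
  have hndR : (R1 ++ [e]).Nodup := by
    have h1 : (R1 ++ [Q, e]).Nodup := (List.nodup_cons.1 hnd1).2
    have h2 : (R1 ++ [e]).Sublist (R1 ++ [Q, e]) :=
      List.Sublist.append_left (by simp) R1
    exact h1.sublist h2
  have hFl : ((R1 ++ [e]).erase t).length = R1.length := by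
    rw [List.length_erase_of_mem htm]; simp
  obtain ⟨h, σ, l, hhu, hlq, hσ⟩ := exists_order (hndR.erase t) (by omega) u q
  have hc : (t :: h :: (σ ++ [l, Q, B])).Perm (B :: (R1 ++ [Q, e])) := by
    have h1 : (t :: h :: (σ ++ [l])).Perm (R1 ++ [e]) :=
      (hσ.cons t).trans (List.perm_cons_erase htm).symm
    have h2 : (t :: h :: (σ ++ [l, Q, B])) = (t :: h :: (σ ++ [l])) ++ [Q, B] := by simp
    rw [h2]
    refine (h1.append_right [Q, B]).trans ?_
    rw [List.perm_iff_count]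
    intro x
    simp only [List.count_append, List.count_cons, List.count_nil]
    omega
  have hN : ∃ N, PV (bb0 ++ [u, t]) (t :: h :: (σ ++ [l, Q, B])) N := by
    refine univ ?_ hndb (hc.trans hb1.symm) (Ne.symm hhu)
    have := hb1.length_eq
    simp at this
    omega
  obtain ⟨N, hN⟩ := hN
  obtain ⟨r, R2, rfl⟩ : ∃ r R2, R1 = r :: R2 := by
    cases R1 with
    | nil => simp at hR
    | cons r R2 => exact ⟨r, R2, rfl⟩
  have hQr : Q ≠ r := by
    rintro rfl
    simp at hnd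
  have hcnd : (t :: h :: (σ ++ [l, Q, B])).Nodup := hc.nodup_iff.2 hnd1
  have hY : ∃ Y, PV ((t :: h :: (σ ++ [l])) ++ [Q, B]) (B :: r :: (R2 ++ [Q, e])) Y := by
    have h2 : (t :: h :: (σ ++ [l, Q, B])) = (t :: h :: (σ ++ [l])) ++ [Q, B] := by simp
    rw [h2] at hcnd hc
    refine univ ?_ hcnd hc.symm hQr
    have := hσ.length_eq
    simp at this ⊢ hR hFl
    omega
  obtain ⟨Y, hY⟩ := hY
  have hPb : P ∉ bb0 ++ [u, t] := fun hm => (List.nodup_cons.1 hnd).1 (hb1.subset hm)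
  refine ⟨t :: h :: σ, l, N, Y, hlq, hN, ?_, ?_⟩
  · have h2 : (t :: h :: σ) ++ [l, Q, B] = (t :: h :: (σ ++ [l])) ++ [Q, B] := by simp
    rw [h2]; exact hY
  · refine PV.comp (c := (t :: h :: (σ ++ [l])) ++ [Q, B]) ?_ hY hPb (by simp)
    have h2 : (t :: h :: (σ ++ [l, Q, B])) = (t :: h :: (σ ++ [l])) ++ [Q, B] := by simp
    rw [h2] at hN
    exact hN

/-- a plain family does not visit its whole ground set -/
theorem PV.avoid_full {b a : List ℕ} {L : Fam} (h : PV b a L) : Avoid L b.toFinset := by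
  intro l p hp he
  have h1 := h.tpv.mem l p (by simp [nil, hp])
  have hnd := h.tpv.nd
  have hl : l = b.length := by
    rw [← h1.2.2.2, he, List.toFinset_card_of_nodup hnd]
  have h2 := h.tpv.len l
  have hbp : 0 < b.length := by
    have : l + 1 ≤ b.length := by
      rw [← h1.2.2.1, ← List.toFinset_card_of_nodup hnd]
      exact Finset.card_le_card h1.2.1
    omega
  rw [Nat.choose_eq_zero_of_lt (by omega)] at h2
  have : L l = [] := by
    apply List.eq_nil_of_length_eq_zero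
    omega
  simp [this] at hp

/-! ## the extension -/

theorem SP.ext {κ q A B z Z y : ℕ} {b β a : List ℕ} {T L N : Fam}
    (h : SP κ q A B z Z β a T L) (hN : PV b β N) (hy : y ∉ β)
    (hm : κ ∈ β ∧ q ∈ β ∧ A ∈ β ∧ B ∈ β ∧ z ∈ β ∧ Z ∈ β) (hlen : 6 ≤ β.length)
    (h2 : Avoid N (β.toFinset \ {κ})) (h3 : Avoid N (β.toFinset \ {κ, z}))
    (h4 : Avoid N (β.toFinset \ {κ, q, A})) :
    SP κ q A B z Z (b ++ [y]) (y :: a) (comp y nil T) (comp y N L) := by
  have hbl : b.length = β.length := hN.perm.length_eq.symm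
  have hbf : b.toFinset = β.toFinset := List.toFinset_eq_of_perm _ _ hN.perm.symm
  have hyb : y ∉ b := fun hm => hy (hN.perm.symm.subset hm)
  have hTl : ∀ l, T l ≠ [] → l = β.length - 2 ∨ l = β.length - 3 ∨ l = β.length - 4 := by
    intro l hl
    by_contra hcon
    push Not at hcon
    exact hl (h.tnone l hcon.1 hcon.2.1 hcon.2.2)
  have hmark : ∀ l, ∀ p ∈ T l, ∀ r ∈ N (l + 1), r.2 ≠ p.1 := by
    intro l p hp r hr
    rcases hTl l (by rintro h0; simp [h0] at hp) with rfl | rfl | rfl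
    · rw [h.t2, List.mem_singleton] at hp
      rw [hp]; exact h2 _ r hr
    · rw [h.t3, List.mem_singleton] at hp
      rw [hp]; exact h3 _ r hr
    · rw [h.t4, List.mem_singleton] at hp
      rw [hp]; exact h4 _ r hr
  have htpv : TPV (b ++ [y]) (comp y nil T) (comp y N L) := by
    refine TPV.comp hN.tpv hN.ends h.tpv hN.perm hyb ?_ ?_ (fun l => Or.inl rfl) hmark
    · intro h0
      rw [h0] at hbl
      simp at hbl
      omega
    · intro l hl
      exact hN.ne_nil hl
  have hends : Ends (y :: a) (comp y N L) := by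
    refine Ends.comp hN.tpv h.ends ?_
    intro l hl hL
    have hN1 := hN.tpv.len (l + 1)
    have hNpos : 0 < (N (l + 1)).length := List.length_pos_iff.2 hl
    have hlt : l + 1 ≤ b.length - 1 := by
      by_contra hcon
      rw [Nat.choose_eq_zero_of_lt (by omega)] at hN1
      omega
    have hL1 := h.tpv.len l
    rw [hL] at hL1
    simp only [List.length_nil, Nat.add_zero] at hL1
    have hT1 := h.tpv.tlen l
    rcases Nat.eq_zero_or_pos l with h0 | h0
    · subst h0
      have : T 0 = [] := h.tnone 0 (by omega) (by omega) (by omega)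
      rw [this] at hL1
      simp at hL1
    · have h5 : 1 < (β.length - 1).choose l := by
        have h6 : (β.length - 1).choose l ≠ 0 := (Nat.choose_pos (by omega)).ne'
        have h7 : (β.length - 1).choose l ≠ 1 := by
          rw [Ne, Nat.choose_eq_one_iff]; omega
        omega
      omega
  obtain ⟨hκ, hq, hA, hB, hz, hZ⟩ := hm
  have hne : ∀ x ∈ β, y ≠ x := by
    rintro x hx rfl; exact hy hx
  have hf : (b ++ [y]).toFinset = insert y β.toFinset := by
    rw [List.toFinset_append, hbf]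
    ext x
    simp
  have hins : ∀ X : Finset ℕ, X ⊆ β.toFinset →
      insert y (β.toFinset \ X) = (b ++ [y]).toFinset \ X := by
    intro X hX
    rw [hf, Finset.insert_sdiff_of_notMem]
    intro hmem
    exact hy (List.mem_toFinset.1 (hX hmem))
  have hsub : ∀ X : Finset ℕ, (∀ x ∈ X, x ∈ β) → X ⊆ β.toFinset := by
    intro X hX x hx
    exact List.mem_toFinset.2 (hX x hx)
  have hlb : (b ++ [y]).length = β.length + 1 := by simp [hbl]
  have hT' : ∀ l, comp y nil T (l + 1) = (T l).map (ins y) := by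
    intro l; simp [comp, nil]
  refine ⟨htpv, hends, ?_, ?_, ?_, ?_, ?_⟩
  · exact (h.perm.trans hN.perm |>.cons y).trans (List.perm_append_singleton _ _).symm
  · have : (b ++ [y]).length - 2 = (β.length - 2) + 1 := by omega
    rw [this, hT', h.t2]
    simp only [List.map_cons, List.map_nil, ins]
    rw [hins {κ} (hsub _ (by simpa using hκ)), hins {κ, A} (hsub _ (by simp [hκ, hA]))]
  · have : (b ++ [y]).length - 3 = (β.length - 3) + 1 := by omega
    rw [this, hT', h.t3]
    simp only [List.map_cons, List.map_nil, ins]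
    rw [hins {κ, z} (hsub _ (by simp [hκ, hz])), hins {κ, z, Z} (hsub _ (by simp [hκ, hz, hZ]))]
  · have : (b ++ [y]).length - 4 = (β.length - 4) + 1 := by omega
    rw [this, hT', h.t4]
    simp only [List.map_cons, List.map_nil, ins]
    rw [hins {κ, q, A} (hsub _ (by simp [hκ, hq, hA])),
      hins {κ, q, A, B} (hsub _ (by simp [hκ, hq, hA, hB]))]
  · intro l hl2 hl3 hl4
    rw [hlb] at hl2 hl3 hl4
    cases l with
    | zero => rfl
    | succ l =>
      rw [hT', h.tnone l (by omega) (by omega) (by omega)]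
      rfl

/-- valleys of a family avoid elements outside its ground set -/
theorem PV.not_mem_valley {b a : List ℕ} {L : Fam} (h : PV b a L) {y : ℕ} (hy : y ∉ b) :
    ∀ l, ∀ p ∈ L l, y ∉ p.2 := by
  intro l p hp hyp
  have h1 := h.tpv.mem l p (by simp [nil, hp])
  exact hy (List.mem_toFinset.1 (h1.2.1 (h1.1 hyp)))

/-- step `A → κ` -/
theorem sp_stepA {κ q A B z Z y e u t : ℕ} {R1 bb0 a : List ℕ} {T L : Fam}
    (h : SP κ q A B z Z (A :: B :: (R1 ++ [κ, e])) a T L)
    (hd : [κ, q, A, B, z, Z].Nodup) (hq : q ∈ A :: B :: (R1 ++ [κ, e]))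
    (hz : z ∈ A :: B :: (R1 ++ [κ, e])) (hZ : Z ∈ A :: B :: (R1 ++ [κ, e]))
    (hR : 5 ≤ R1.length) (hRz : R1.getLast? ≠ some z) (hez : e ≠ z)
    (hbb : (bb0 ++ [u, t] ++ [A]).Perm (A :: B :: (R1 ++ [κ, e]))) (htB : t ≠ B) (htκ : t ≠ κ)
    (hy : y ∉ A :: B :: (R1 ++ [κ, e])) :
    ∃ T' L', SP κ q A B z Z (bb0 ++ [u, t] ++ [A] ++ [y]) (y :: a) T' L' := by
  have hnd : (A :: B :: (R1 ++ [κ, e])).Nodup := h.tpv.nd
  obtain ⟨c1, l, N, Y, hlq, hN, hY, hNY⟩ := sp_build q hnd hR hbb htB htκ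
  have hAt : A ∉ B :: (R1 ++ [κ, e]) := (List.nodup_cons.1 hnd).1
  have hAc : A ∉ c1 ++ [l, κ, B] := fun hm => hAt (hY.perm.symm.subset hm)
  have hAb : A ∉ bb0 ++ [u, t] := fun hm => hAc (hN.perm.symm.subset hm)
  simp only [List.nodup_cons, List.mem_cons, List.not_mem_nil, or_false, not_or,
    List.nodup_nil, and_true, not_false_eq_true] at hd
  obtain ⟨⟨hκq, hκA, hκB, hκz, hκZ⟩, ⟨hqA, hqB, hqz, hqZ⟩, ⟨hAB, hAz, hAZ⟩, ⟨hBz, hBZ⟩, hzZ⟩ := hd
  have hfc : (c1 ++ [l, κ, B]).toFinset = (A :: B :: (R1 ++ [κ, e])).toFinset.erase A := by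
    rw [List.toFinset_cons, Finset.erase_insert (fun hm => hAt (List.mem_toFinset.1 hm))]
    exact List.toFinset_eq_of_perm _ _ hY.perm.symm
  have hfb : (bb0 ++ [u, t]).toFinset = (A :: B :: (R1 ++ [κ, e])).toFinset.erase A := by
    rw [← hfc]
    exact List.toFinset_eq_of_perm _ _ hN.perm.symm
  have hκe : κ ≠ e := by
    rintro rfl
    simp [List.nodup_append] at hnd
  have hκm : κ ∈ A :: B :: (R1 ++ [κ, e]) := by simp
  -- the last element of R1
  obtain ⟨R2, r, rfl⟩ : ∃ R2 r, R1 = R2 ++ [r] := by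
    rcases List.eq_nil_or_concat R1 with h0 | ⟨R2, r, h0⟩
    · simp [h0] at hR
    · exact ⟨R2, r, by simpa using h0⟩
  have hrz : r ≠ z := by
    rintro rfl
    simp at hRz
  have e1 : (B :: (R2 ++ [r] ++ [κ, e])) = (B :: (R2 ++ [r, κ])) ++ [e] := by simp
  have e2 : (B :: (R2 ++ [r] ++ [κ, e])) = (B :: R2) ++ [r, κ, e] := by simp
  refine ⟨_, _, SP.ext h hNY hy ⟨hκm, hq, by simp, by simp, hz, hZ⟩
    (by simp at hR ⊢; omega) ?_ ?_ ?_⟩
  · -- `S \ κ`
    refine avoid_comp_of_mem hN hAb ?_ ?_ (hY.not_mem_valley hAc)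
    · simp [Ne.symm hκA]
    · have h1 : Avoid Y ((c1 ++ [l, κ, B]).toFinset \ {κ}) := by
        have hY' := hY
        rw [e1] at hY'
        exact hY'.avoid_top hκe
      rw [hfc] at h1
      rwa [Finset.erase_sdiff_comm] at h1
  · -- `S \ {κ, z}`
    refine avoid_comp_of_mem hN hAb ?_ ?_ (hY.not_mem_valley hAc)
    · simp [Ne.symm hκA, hAz]
    · have h1 : Avoid Y ((c1 ++ [l, κ, B]).toFinset \ {z, κ}) := by
        have hY' := hY
        rw [e2] at hY'
        refine hY'.avoid_top2 ?_ (Ne.symm hrz) (Ne.symm hκz) (Ne.symm hez)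
        have : z ∈ (c1 ++ [l, κ, B]).toFinset := by
          rw [hfc, Finset.mem_erase]
          exact ⟨Ne.symm hAz, List.mem_toFinset.2 hz⟩
        exact List.mem_toFinset.1 this
      rw [hfc, Finset.pair_comm] at h1
      rwa [Finset.erase_sdiff_comm] at h1
  · -- `S \ {κ, q, A}`
    refine avoid_comp_of_not_mem (by simp) ?_
    have h1 : Avoid N ((bb0 ++ [u, t]).toFinset \ {q, κ}) := by
      refine hN.avoid_top2 ?_ (Ne.symm hlq) (Ne.symm hκq) hqB
      have : q ∈ (bb0 ++ [u, t]).toFinset := by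
        rw [hfb, Finset.mem_erase]
        exact ⟨hqA, List.mem_toFinset.2 hq⟩
      exact List.mem_toFinset.1 this
    rw [hfb] at h1
    have h2 : (A :: B :: (R2 ++ [r] ++ [κ, e])).toFinset.erase A \ {q, κ} =
        (A :: B :: (R2 ++ [r] ++ [κ, e])).toFinset \ {κ, q, A} := by
      ext x
      simp only [Finset.mem_sdiff, Finset.mem_erase, Finset.mem_insert, Finset.mem_singleton]
      tauto
    rwa [h2] at h1

/-- step `κ → A` -/
theorem sp_stepK {κ q A B z Z y e u t : ℕ} {R1 bb0 a : List ℕ} {T L : Fam}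
    (h : SP κ q A B z Z (κ :: B :: (R1 ++ [A, e])) a T L)
    (hd : [κ, q, A, B, z, Z].Nodup) (hq : q ∈ κ :: B :: (R1 ++ [A, e]))
    (hz : z ∈ κ :: B :: (R1 ++ [A, e])) (hZ : Z ∈ κ :: B :: (R1 ++ [A, e]))
    (hR : 5 ≤ R1.length)
    (hbb : (bb0 ++ [u, t] ++ [κ]).Perm (κ :: B :: (R1 ++ [A, e]))) (htB : t ≠ B) (htA : t ≠ A)
    (hy : y ∉ κ :: B :: (R1 ++ [A, e])) :
    ∃ T' L', SP κ q A B z Z (bb0 ++ [u, t] ++ [κ] ++ [y]) (y :: a) T' L' := by
  have hnd : (κ :: B :: (R1 ++ [A, e])).Nodup := h.tpv.nd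
  obtain ⟨c1, l, N, Y, hlq, hN, hY, hNY⟩ := sp_build q hnd hR hbb htB htA
  have hAt : κ ∉ B :: (R1 ++ [A, e]) := (List.nodup_cons.1 hnd).1
  have hAc : κ ∉ c1 ++ [l, A, B] := fun hm => hAt (hY.perm.symm.subset hm)
  simp only [List.nodup_cons, List.mem_cons, List.not_mem_nil, or_false, not_or,
    List.nodup_nil, and_true, not_false_eq_true] at hd
  obtain ⟨⟨hκq, hκA, hκB, hκz, hκZ⟩, ⟨hqA, hqB, hqz, hqZ⟩, ⟨hAB, hAz, hAZ⟩, ⟨hBz, hBZ⟩, hzZ⟩ := hd
  have hfc : (c1 ++ [l, A, B]).toFinset = (κ :: B :: (R1 ++ [A, e])).toFinset.erase κ := by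
    rw [List.toFinset_cons, Finset.erase_insert (fun hm => hAt (List.mem_toFinset.1 hm))]
    exact List.toFinset_eq_of_perm _ _ hY.perm.symm
  have hfb : (bb0 ++ [u, t]).toFinset = (κ :: B :: (R1 ++ [A, e])).toFinset.erase κ := by
    rw [← hfc]
    exact List.toFinset_eq_of_perm _ _ hN.perm.symm
  have hAm : A ∈ κ :: B :: (R1 ++ [A, e]) := by simp
  refine ⟨_, _, SP.ext h hNY hy ⟨by simp, hq, hAm, by simp, hz, hZ⟩ (by simp; omega) ?_ ?_ ?_⟩
  · -- `S \ κ`
    refine avoid_comp_of_not_mem (by simp) ?_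
    have h1 := hN.avoid_full
    rw [hfb] at h1
    rwa [Finset.sdiff_singleton_eq_erase]
  · -- `S \ {κ, z}`
    refine avoid_comp_of_not_mem (by simp) ?_
    have h1 : Avoid N ((bb0 ++ [u, t]).toFinset \ {z}) := by
      have hN' := hN
      have e3 : c1 ++ [l, A, B] = (c1 ++ [l, A]) ++ [B] := by simp
      rw [e3] at hN'
      exact hN'.avoid_top (Ne.symm hBz)
    rw [hfb] at h1
    have h2 : (κ :: B :: (R1 ++ [A, e])).toFinset.erase κ \ {z} =
        (κ :: B :: (R1 ++ [A, e])).toFinset \ {κ, z} := by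
      ext x
      simp only [Finset.mem_sdiff, Finset.mem_erase, Finset.mem_insert, Finset.mem_singleton]
      tauto
    rwa [h2] at h1
  · -- `S \ {κ, q, A}`
    refine avoid_comp_of_not_mem (by simp) ?_
    have h1 : Avoid N ((bb0 ++ [u, t]).toFinset \ {q, A}) := by
      refine hN.avoid_top2 ?_ (Ne.symm hlq) hqA hqB
      have : q ∈ (bb0 ++ [u, t]).toFinset := by
        rw [hfb, Finset.mem_erase]
        exact ⟨Ne.symm hκq, List.mem_toFinset.2 hq⟩
      exact List.mem_toFinset.1 this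
    rw [hfb] at h1
    have h2 : (κ :: B :: (R1 ++ [A, e])).toFinset.erase κ \ {q, A} =
        (κ :: B :: (R1 ++ [A, e])).toFinset \ {κ, q, A} := by
      ext x
      simp only [Finset.mem_sdiff, Finset.mem_erase, Finset.mem_insert, Finset.mem_singleton]
      tauto
    rwa [h2] at h1

/-- iteration: pairs of steps -/
theorem sp_iter {κ q A B z Z : ℕ} (hd : [κ, q, A, B, z, Z].Nodup) (n : ℕ) :
    ∀ (R0 a E : List ℕ) (e : ℕ) (T L : Fam), E.length = 2 * n →
    SP κ q A B z Z (A :: B :: (R0 ++ [κ, e])) a T L →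
    q ∈ A :: B :: (R0 ++ [κ, e]) → z ∈ A :: B :: (R0 ++ [κ, e]) → Z ∈ A :: B :: (R0 ++ [κ, e]) →
    5 ≤ R0.length → R0.getLast? ≠ some z → e ≠ z →
    (E ++ A :: B :: (R0 ++ [κ, e])).Nodup →
    ∃ (R1 : List ℕ) (e' : ℕ) (T' L' : Fam),
      SP κ q A B z Z (A :: B :: (R1 ++ [κ, e'])) (E.reverse ++ a) T' L' ∧
      (A :: B :: (R1 ++ [κ, e'])).Perm (E ++ A :: B :: (R0 ++ [κ, e])) ∧
      5 ≤ R1.length ∧ R1.getLast? ≠ some z ∧ e' ≠ z := by
  induction n with
  | zero =>
    intro R0 a E e T L hE h hq hz hZ hR hRz hez hnd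
    have : E = [] := List.eq_nil_of_length_eq_zero (by simpa using hE)
    subst this
    exact ⟨R0, e, T, L, by simpa using h, by simp, hR, hRz, hez⟩
  | succ n ih =>
    intro R0 a E e T L hE h hq hz hZ hR hRz hez hnd
    match E, hE, hnd with
    | e1 :: e2 :: E', hE, hnd =>
      have hE' : E'.length = 2 * n := by simp at hE; omega
      have hzm := hz
      -- non-membership facts
      have hnd1 : e1 ∉ A :: B :: (R0 ++ [κ, e]) := by
        intro hm
        have h0 := (List.nodup_cons.1 hnd).1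
        exact h0 (List.mem_append_right (e2 :: E') hm)
      have hnd2 : e2 ∉ A :: B :: (R0 ++ [κ, e]) := by
        intro hm
        have h0 := (List.nodup_cons.1 (List.nodup_cons.1 hnd).2).1
        exact h0 (List.mem_append_right E' hm)
      have h12 : e1 ≠ e2 := by
        rintro rfl
        simp at hnd
      have hβ : (A :: B :: (R0 ++ [κ, e])).Nodup := h.tpv.nd
      obtain ⟨R2, r, rfl⟩ : ∃ R2 r, R0 = R2 ++ [r] := by
        rcases List.eq_nil_or_concat R0 with h0 | ⟨R2, r, h0⟩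
        · simp [h0] at hR
        · exact ⟨R2, r, by simpa using h0⟩
      -- first step: `b'' = κ :: B :: R0 ++ [e]`
      have hp1 : ((κ :: B :: R2) ++ [r, e] ++ [A]).Perm (A :: B :: ((R2 ++ [r]) ++ [κ, e])) := by
        rw [List.perm_iff_count]
        intro x
        simp only [List.count_append, List.count_cons, List.count_nil]
        omega
      have heB : e ≠ B := by
        rintro rfl
        simp at hβ
      have heκ : e ≠ κ := by
        rintro rfl
        simp [List.nodup_append] at hβ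
      obtain ⟨T1, L1, h1⟩ := sp_stepA h hd hq hz hZ hR hRz hez hp1 heB heκ hnd1
      have s1 : (κ :: B :: R2) ++ [r, e] ++ [A] ++ [e1] =
          κ :: B :: ((R2 ++ [r, e]) ++ [A, e1]) := by simp
      rw [s1] at h1
      have hmem1 : ∀ x, x ∈ A :: B :: ((R2 ++ [r]) ++ [κ, e]) →
          x ∈ κ :: B :: ((R2 ++ [r, e]) ++ [A, e1]) := by
        intro x hx
        simp only [List.mem_cons, List.mem_append, List.not_mem_nil, or_false] at hx ⊢
        tauto
      have hp2 : ((A :: B :: (R2 ++ [r])) ++ [e, e1] ++ [κ]).Perm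
          (κ :: B :: ((R2 ++ [r, e]) ++ [A, e1])) := by
        rw [List.perm_iff_count]
        intro x
        simp only [List.count_append, List.count_cons, List.count_nil]
        omega
      have he1B : e1 ≠ B := by
        rintro rfl
        simp at hnd1
      have he1A : e1 ≠ A := by
        rintro rfl
        simp at hnd1
      have hnd3 : e2 ∉ κ :: B :: ((R2 ++ [r, e]) ++ [A, e1]) := by
        intro hm
        apply hnd2
        simp only [List.mem_cons, List.mem_append, List.not_mem_nil, or_false] at hm ⊢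
        have := Ne.symm h12
        tauto
      obtain ⟨T2, L2, h2⟩ := sp_stepK h1 hd (hmem1 q hq) (hmem1 z hz) (hmem1 Z hZ)
        (by simp at hR ⊢; omega) hp2 he1B he1A hnd3
      have s2 : (A :: B :: (R2 ++ [r])) ++ [e, e1] ++ [κ] ++ [e2] =
          A :: B :: ((R2 ++ [r, e, e1]) ++ [κ, e2]) := by simp
      rw [s2] at h2
      have hmem2 : ∀ x, x ∈ A :: B :: ((R2 ++ [r]) ++ [κ, e]) →
          x ∈ A :: B :: ((R2 ++ [r, e, e1]) ++ [κ, e2]) := by
        intro x hx
        simp only [List.mem_cons, List.mem_append, List.not_mem_nil, or_false] at hx ⊢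
        tauto
      have hp3 : (E' ++ A :: B :: ((R2 ++ [r, e, e1]) ++ [κ, e2])).Perm
          ((e1 :: e2 :: E') ++ A :: B :: ((R2 ++ [r]) ++ [κ, e])) := by
        rw [List.perm_iff_count]
        intro x
        simp only [List.count_append, List.count_cons, List.count_nil]
        omega
      have he1z : e1 ≠ z := by
        rintro rfl
        exact hnd1 hz
      have he2z : e2 ≠ z := by
        rintro rfl
        exact hnd2 hz
      obtain ⟨R1, e', T', L', h3, hp4, h4, h5, h6⟩ := ih (R2 ++ [r, e, e1]) (e2 :: e1 :: a) E' e2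
        T2 L2 hE' h2 (hmem2 q hq) (hmem2 z hz) (hmem2 Z hZ) (by simp at hR ⊢; omega)
        (by
          have : R2 ++ [r, e, e1] = (R2 ++ [r, e]) ++ [e1] := by simp
          rw [this, List.getLast?_append]
          simpa using he1z)
        he2z (hp3.nodup_iff.2 hnd)
      refine ⟨R1, e', T', L', ?_, hp4.trans hp3, h4, h5, h6⟩
      have : (e1 :: e2 :: E').reverse ++ a = E'.reverse ++ (e2 :: e1 :: a) := by simp
      rw [this]; exact h3

/-- all three special families from their bases -/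
theorem sp_all {i : ℕ} (hi : 10 ≤ i) (he : i % 2 = 0) {α mid : List ℕ} {t y : ℕ}
    (hα : α = 2 :: mid ++ [t, 1, y]) (hp : α.Perm (List.range' 1 (i - 1))) (ht : t ≠ 3)
    (hy : y ∉ [1, 2, 3, 4, 5, 7, i - 2]) {R0 : List ℕ} {af : ℕ → List ℕ}
    (hR0 : R0.Perm [i - 2, 2, 5, 7, 4]) (hRz : R0.getLast? ≠ some 2)
    (hbase : ∀ e, [i, i - 2, 1, 3, 2, 5, 7, 4, e].Nodup →
      ∃ T L, SP i (i - 2) 1 3 2 5 (1 :: 3 :: (R0 ++ [i, e])) (af e) T L) :
    ∃ (a1 : List ℕ) (e : ℕ) (T L : Fam), SP i (i - 2) 1 3 2 5 (i :: α) (a1 ++ af e) T L := by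
  have hαnd : α.Nodup := hp.nodup_iff.2 List.nodup_range'
  have hmemα : ∀ x, x ∈ α ↔ 1 ≤ x ∧ x < i := by
    intro x
    rw [hp.mem_iff, List.mem_range'_1]
    constructor
    · rintro ⟨h1, h2⟩; exact ⟨h1, by omega⟩
    · rintro ⟨h1, h2⟩; exact ⟨h1, by omega⟩
  have hyα : y ∈ α := by rw [hα]; simp
  have htα : t ∈ α := by rw [hα]; simp
  have hy1 := (hmemα y).1 hyα
  have ht1 := (hmemα t).1 htα
  simp only [List.mem_cons, List.not_mem_nil, or_false, not_or] at hy
  -- the remaining elements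
  obtain ⟨G, hG, hGnd⟩ : ∃ G : List ℕ, (∀ x, x ∈ G ↔ (1 ≤ x ∧ x < i ∧
      x ∉ [1, 2, 3, 4, 5, 7, i - 2, y])) ∧ G.Nodup := by
    refine ⟨α.filter (fun x => decide (x ∉ [1, 2, 3, 4, 5, 7, i - 2, y])), ?_, hαnd.filter _⟩
    intro x
    rw [List.mem_filter, hmemα]
    simp only [decide_eq_true_eq]
    tauto
  have hbig : (G ++ [1, 2, 3, 4, 5, 7, i - 2, y]).Perm α := by
    rw [List.perm_ext_iff_of_nodup _ hαnd]
    · intro x
      rw [List.mem_append, hG, hmemα]
      simp only [List.mem_cons, List.not_mem_nil, or_false, not_or]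
      constructor
      · rintro (h | h)
        · exact ⟨h.1, h.2.1⟩
        · omega
      · intro h
        by_cases h1 : x = 1 ∨ x = 2 ∨ x = 3 ∨ x = 4 ∨ x = 5 ∨ x = 7 ∨ x = i - 2 ∨ x = y
        · exact Or.inr h1
        · left
          push Not at h1
          exact ⟨h.1, h.2, h1⟩
    · rw [List.nodup_append]
      refine ⟨hGnd, ?_, ?_⟩
      · simp only [List.nodup_cons, List.mem_cons, List.not_mem_nil, or_false, not_or,
          List.nodup_nil, and_true, not_false_eq_true]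
        omega
      · intro x hx x' hx' hxx
        subst hxx
        exact ((hG x).1 hx).2.2 hx'
  have hGl : G.length + 8 = i - 1 := by
    have h1 := hbig.length_eq
    have h2 := hp.length_eq
    simp at h1 h2
    omega
  obtain ⟨e, E, rfl⟩ : ∃ e E, G = e :: E := by
    cases G with
    | nil => simp at hGl; omega
    | cons e E => exact ⟨e, E, rfl⟩
  have heG := (hG e).1 (by simp)
  simp only [List.mem_cons, List.not_mem_nil, or_false, not_or] at heG
  have hEl : E.length = 2 * ((i - 10) / 2) := by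
    simp at hGl
    omega
  have hnd9 : [i, i - 2, 1, 3, 2, 5, 7, 4, e].Nodup := by
    simp only [List.nodup_cons, List.mem_cons, List.not_mem_nil, or_false, not_or,
      List.nodup_nil, and_true, not_false_eq_true]
    omega
  have hd : [i, i - 2, 1, 3, 2, 5].Nodup := by
    simp only [List.nodup_cons, List.mem_cons, List.not_mem_nil, or_false, not_or,
      List.nodup_nil, and_true, not_false_eq_true]
    omega
  obtain ⟨T, L, hSP⟩ := hbase e hnd9
  have hcR : ∀ x, List.count x R0 = List.count x [i - 2, 2, 5, 7, 4] :=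
    fun x => List.perm_iff_count.1 hR0 x
  have hmR : ∀ x, x ∈ [i - 2, 2, 5, 7, 4] → x ∈ 1 :: 3 :: (R0 ++ [i, e]) := by
    intro x hx
    have : x ∈ R0 := hR0.symm.subset hx
    simp [this]
  have hyc : (y :: i :: (E ++ 1 :: 3 :: (R0 ++ [e]))).Perm (i :: α) := by
    have h1 : (i :: ((e :: E) ++ [1, 2, 3, 4, 5, 7, i - 2, y])).Perm (i :: α) := hbig.cons i
    refine List.Perm.trans ?_ h1
    rw [List.perm_iff_count]
    intro x
    simp only [List.count_append, List.count_cons, List.count_nil, hcR]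
    omega
  have hnd10 : (i :: α).Nodup := by
    rw [List.nodup_cons]
    refine ⟨?_, hαnd⟩
    rw [hmemα]; omega
  have hperm1 : (y :: (E ++ 1 :: 3 :: (R0 ++ [i, e]))).Perm (i :: α) := by
    refine List.Perm.trans ?_ hyc
    rw [List.perm_iff_count]
    intro x
    simp only [List.count_append, List.count_cons, List.count_nil]
    omega
  have hnd11 : (y :: (E ++ 1 :: 3 :: (R0 ++ [i, e]))).Nodup := hperm1.nodup_iff.2 hnd10
  obtain ⟨R1, e', T', L', h3, hp4, h4, h5, h6⟩ := sp_iter hd ((i - 10) / 2) R0 (af e) E e T L hEl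
    hSP (hmR _ (by simp)) (hmR _ (by simp)) (hmR _ (by simp))
    (by rw [hR0.length_eq]; simp) hRz (by omega) (List.nodup_cons.1 hnd11).2
  have hm4 : ∀ x, x ∈ 1 :: 3 :: (R0 ++ [i, e]) → x ∈ 1 :: 3 :: (R1 ++ [i, e']) := by
    intro x hx
    exact hp4.symm.subset (List.mem_append_right _ hx)
  have hyn : y ∉ 1 :: 3 :: (R1 ++ [i, e']) := fun hm =>
    (List.nodup_cons.1 hnd11).1 (hp4.subset hm)
  -- the last step
  obtain ⟨m0, u, hm0⟩ : ∃ m0 u, i :: 2 :: mid = m0 ++ [u] := by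
    rcases List.eq_nil_or_concat (i :: 2 :: mid) with h0 | ⟨R2, r, h0⟩
    · simp at h0
    · exact ⟨R2, r, by simpa using h0⟩
  have hbb : (m0 ++ [u, t] ++ [1]).Perm (1 :: 3 :: (R1 ++ [i, e'])) := by
    have h7 : (y :: (m0 ++ [u, t] ++ [1])).Perm (y :: (1 :: 3 :: (R1 ++ [i, e']))) := by
      refine List.Perm.trans ?_ ((hp4.cons y).trans hperm1).symm
      have h8 : m0 ++ [u, t] ++ [1] = (m0 ++ [u]) ++ [t, 1] := by simp
      rw [h8, ← hm0, hα]
      rw [List.perm_iff_count]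
      intro x
      simp only [List.count_append, List.count_cons, List.count_nil]
      omega
    exact (List.perm_cons y).1 h7
  obtain ⟨T2, L2, hfin⟩ := sp_stepA h3 hd (hm4 _ (hmR _ (by simp))) (hm4 _ (hmR _ (by simp)))
    (hm4 _ (hmR _ (by simp))) h4 h5 h6 hbb ht (by omega) hyn
  refine ⟨y :: E.reverse, e, T2, L2, ?_⟩
  have h9 : m0 ++ [u, t] ++ [1] ++ [y] = i :: α := by
    have h8 : m0 ++ [u, t] ++ [1] ++ [y] = (m0 ++ [u]) ++ [t, 1, y] := by simp
    rw [h8, ← hm0, hα]; simp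
  rw [h9] at hfin
  exact hfin

theorem sp_z {i : ℕ} (hi : 10 ≤ i) (he : i % 2 = 0) {α mid : List ℕ} {t y : ℕ}
    (hα : α = 2 :: mid ++ [t, 1, y]) (hp : α.Perm (List.range' 1 (i - 1))) (ht : t ≠ 3)
    (hy : y ∉ [1, 2, 3, 4, 5, 7, i - 2]) :
    ∃ a0 T L, SP i (i - 2) 1 3 2 5 (i :: α) (a0 ++ [5, 2]) T L := by
  obtain ⟨a1, e, T, L, h⟩ := sp_all hi he hα hp ht hy (R0 := [i - 2, 2, 4, 5, 7])
    (af := fun e => [e, 4, i, 7, 3, i - 2, 1, 5, 2])
    (by
      rw [List.perm_iff_count]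
      intro x
      simp only [List.count_cons, List.count_nil]
      omega)
    (by simp) (fun e hnd => base_sp_z hnd)
  refine ⟨a1 ++ [e, 4, i, 7, 3, i - 2, 1], T, L, ?_⟩
  simpa using h

theorem sp_A {i : ℕ} (hi : 10 ≤ i) (he : i % 2 = 0) {α mid : List ℕ} {t y : ℕ}
    (hα : α = 2 :: mid ++ [t, 1, y]) (hp : α.Perm (List.range' 1 (i - 1))) (ht : t ≠ 3)
    (hy : y ∉ [1, 2, 3, 4, 5, 7, i - 2]) :
    ∃ a0 T L, SP i (i - 2) 1 3 2 5 (i :: α) (a0 ++ [3, 1]) T L := by
  obtain ⟨a1, e, T, L, h⟩ := sp_all hi he hα hp ht hy (R0 := [4, 2, 5, i - 2, 7])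
    (af := fun e => [e, 4, 5, i - 2, 2, 7, i, 3, 1])
    (by
      rw [List.perm_iff_count]
      intro x
      simp only [List.count_cons, List.count_nil]
      omega)
    (by simp) (fun e hnd => base_sp_A hnd)
  refine ⟨a1 ++ [e, 4, 5, i - 2, 2, 7, i], T, L, ?_⟩
  simpa using h

theorem sp_g {i : ℕ} (hi : 10 ≤ i) (he : i % 2 = 0) {α mid : List ℕ} {t y : ℕ}
    (hα : α = 2 :: mid ++ [t, 1, y]) (hp : α.Perm (List.range' 1 (i - 1))) (ht : t ≠ 3)
    (hy : y ∉ [1, 2, 3, 4, 5, 7, i - 2]) :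
    ∃ a0 t' T L, t' ≠ 1 ∧ SP i (i - 2) 1 3 2 5 (i :: α) (a0 ++ [t', 4, 3, 2, 5, 7]) T L := by
  obtain ⟨a1, e, T, L, h⟩ := sp_all hi he hα hp ht hy (R0 := [5, 2, 4, i - 2, 7])
    (af := fun e => [e, 1, i, i - 2, 4, 3, 2, 5, 7])
    (by
      rw [List.perm_iff_count]
      intro x
      simp only [List.count_cons, List.count_nil]
      omega)
    (by simp) (fun e hnd => base_sp_g hnd)
  refine ⟨a1 ++ [e, 1, i], i - 2, T, L, by omega, ?_⟩
  simpa using h

end Pool.Agent.Lib.MP_ad4d1c_co_h48.Ex
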